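import Mathlib
import Pool.Agent.P.MP_6331ea_an.Cone
import Pool.Agent.P.MP_6331ea_an.Disc

/-!
A unital commutative complex Banach algebra with the spectral permanence property that is not a
cortex algebra: the cone over the disc algebra.
-/

namespace Pool.Agent.Results.MP_6331ea_an.NotCortex

open Pool.Agent.P.MP_6331ea_an unitInterval

universe v

/-- There is a unital commutative complex Banach algebra `A` such that
(1) `σ_A(x) = σ_B(x)` for all `x ∈ A` whenever `A` sits as a closed unital subalgebra in a
commutative Banach algebra `B`, and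
(2) some character of `A` does not extend to a character of some commutative Banach algebra `B`
that contains `A` isometrically as a closed unital subalgebra. -/
theorem result :
    ∃ (A : Type) (_ : NormedCommRing A) (_ : NormedAlgebra ℂ A) (_ : CompleteSpace A)
      (_ : NormOneClass A),
      (∀ (B : Type v) [NormedCommRing B] [NormedAlgebra ℂ B] [CompleteSpace B]
        (ι : A →ₐ[ℂ] B), Topology.IsClosedEmbedding ι →
          ∀ x : A, spectrum ℂ x = spectrum ℂ (ι x)) ∧
      ∃ φ : WeakDual.characterSpace ℂ A,
        ∃ (B : Type) (_ : NormedCommRing B) (_ : NormedAlgebra ℂ B) (_ : CompleteSpace B)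
          (_ : NormOneClass B) (ι : A →ₐ[ℂ] B), Isometry ι ∧
          ¬ ∃ ψ : WeakDual.characterSpace ℂ B, ∀ a : A, ψ (ι a) = φ a := by
  refine ⟨cone disc, inferInstance, inferInstance,
    (isClosed_cone isClosed_disc).completeSpace_coe, ⟨(norm_one : ‖(1 : C(I, CT))‖ = 1)⟩,
    fun B _ _ _ ι hι x => spectrum_cone isClosed_disc ι hι.isEmbedding x, ?_⟩
  obtain ⟨φ, hφ⟩ := exists_character isClosed_disc ⟨zc, zc_mem⟩ not_isUnit_zc isUnit_zc
  refine ⟨φ, C(I, CT), inferInstance, inferInstance, inferInstance, inferInstance,
    (cone disc).val, isometry_subtype_coe, ?_⟩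
  rintro ⟨ψ, hψ⟩
  exact hφ ψ hψ

end Pool.Agent.Results.MP_6331ea_an.NotCortex
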